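import Mathlib
import Pool.Agent.Lib.MP_9a669f_co.U.Main

namespace Pool.Agent.Results.MP_9a669f_co.NearConvex

open Pool.Agent.Lib.MP_9a669f_co

/-- If `B` is a subset in convex position of a finite planar point set `P`, with `h` points in
`B` and `m` points outside, then `P` has an angle-monotone graph of width 90 degrees with at
most `112 h + 58 h log (m + 1) + 6 m log m` edges. -/
theorem result (P B : Finset (ℝ × ℝ)) (hB : B ⊆ P)
    (h : ConvexIndependent ℝ (fun p : B => (p : ℝ × ℝ))) :
    ∃ G : SimpleGraph P, AngleMonotone (Real.pi / 2) P G ∧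
      (G.edgeSet.ncard : ℝ) ≤ 112 * B.card + 58 * B.card * Real.log ((P \ B).card + 1) +
        6 * (P \ B).card * Real.log (P \ B).card :=
  U.near_convex P B hB h

end Pool.Agent.Results.MP_9a669f_co.NearConvex
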